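import Mathlib

/-! Counting families of sign words with bounded alternation. -/

set_option autoImplicit false

namespace Pool.Agent.Lib.MP_6a261b_co

open Finset

/-- A word records, for every position, either nothing or a sign. -/
abbrev Word := ℕ → Option SignType

/-- Strict comparison of two letters. -/
def Gt (a b : Option SignType) : Prop := ∃ x y, a = some x ∧ b = some y ∧ y < x

/-- `Alt j u v m`: an alternating sequence of `j` comparisons below position `m`. -/
def Alt : ℕ → Word → Word → ℕ → Prop
  | 0, _, _, _ => True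
  | j + 1, u, v, m => ∃ t, t < m ∧ Gt (u t) (v t) ∧ Alt j v u t

def trunc (m : ℕ) (w : Word) : Word := fun t => if t < m then w t else none

def IsPM (a : Option SignType) : Prop := a = some 1 ∨ a = some (-1)

def Opn (m : ℕ) (w : Word) : Prop :=
  ∃ a, a < m ∧ (∀ t, t < a → w t = none) ∧ w a = some 0 ∧ (∀ t, a < t → t < m → IsPM (w t)) ∧
    ∀ t, m ≤ t → w t = none

def Cls (m : ℕ) (w : Word) : Prop :=
  ∃ a b, a < b ∧ b < m ∧ (∀ t, t < a → w t = none) ∧ w a = some 0 ∧
    (∀ t, a < t → t < b → IsPM (w t)) ∧ w b = some 0 ∧ ∀ t, b < t → w t = none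

lemma Alt.mono {j : ℕ} {u v : Word} {m m' : ℕ} (h : Alt j u v m) (hm : m ≤ m') : Alt j u v m' := by
  cases j with
  | zero => trivial
  | succ j =>
    obtain ⟨t, ht, h1, h2⟩ := h
    exact ⟨t, lt_of_lt_of_le ht hm, h1, h2⟩

lemma Alt.of_trunc {M : ℕ} : ∀ {j : ℕ} {u v : Word} {m : ℕ}, m ≤ M →
    Alt j (trunc M u) (trunc M v) m → Alt j u v m
  | 0, _, _, _, _, _ => trivial
  | j + 1, u, v, m, hm, h => by
    obtain ⟨t, ht, h1, h2⟩ := h
    have htM : t < M := lt_of_lt_of_le ht hm
    refine ⟨t, ht, ?_, Alt.of_trunc htM.le h2⟩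
    simpa [trunc, htM] using h1

lemma eq_of_trunc {m : ℕ} {u v : Word} (h : trunc m u = trunc m v) (hm : u m = v m)
    (hu : ∀ t, m + 1 ≤ t → u t = none) (hv : ∀ t, m + 1 ≤ t → v t = none) : u = v := by
  funext t
  rcases lt_trichotomy t m with ht | ht | ht
  · have := congrFun h t
    simpa [trunc, ht] using this
  · rw [ht]; exact hm
  · rw [hu t ht, hv t ht]

lemma IsPM.ne_zero {a : Option SignType} (h : IsPM a) : a ≠ some 0 := by
  rcases h with h | h <;> rw [h] <;> decide

lemma IsPM.ne_none {a : Option SignType} (h : IsPM a) : a ≠ none := by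
  rcases h with h | h <;> rw [h] <;> simp

lemma gt_or_gt_of_pm_zero {a b : Option SignType} (ha : IsPM a) (hb : b = some 0) :
    Gt a b ∨ Gt b a := by
  rcases ha with ha | ha
  · left; exact ⟨1, 0, ha, hb, by decide⟩
  · right; exact ⟨0, -1, hb, ha, by decide⟩

lemma gt_or_gt_of_pm_pm {a b : Option SignType} (ha : IsPM a) (hb : IsPM b) (hab : a ≠ b) :
    Gt a b ∨ Gt b a := by
  rcases ha with ha | ha <;> rcases hb with hb | hb
  · exact absurd (ha.trans hb.symm) hab
  · left; exact ⟨1, -1, ha, hb, by decide⟩
  · right; exact ⟨1, -1, hb, ha, by decide⟩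
  · exact absurd (ha.trans hb.symm) hab

/-- Two different open words of the same level are strictly comparable somewhere. -/
lemma Opn.alt_one {m : ℕ} {u v : Word} (hu : Opn m u) (hv : Opn m v) (huv : u ≠ v) :
    Alt 1 u v m ∨ Alt 1 v u m := by
  obtain ⟨a, ha, hu1, hu2, hu3, hu4⟩ := hu
  obtain ⟨b, hb, hv1, hv2, hv3, hv4⟩ := hv
  have key : ∃ t, t < m ∧ (Gt (u t) (v t) ∨ Gt (v t) (u t)) := by
    rcases lt_trichotomy a b with hab | hab | hab
    · exact ⟨b, hb, gt_or_gt_of_pm_zero (hu3 b hab hb) hv2⟩
    · subst hab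
      by_contra hcon
      apply huv
      funext t
      rcases lt_trichotomy t a with ht | ht | ht
      · rw [hu1 t ht, hv1 t ht]
      · rw [ht, hu2, hv2]
      · by_cases htm : t < m
        · by_contra hne
          exact hcon ⟨t, htm, gt_or_gt_of_pm_pm (hu3 t ht htm) (hv3 t ht htm) hne⟩
        · rw [hu4 t (not_lt.1 htm), hv4 t (not_lt.1 htm)]
    · exact ⟨a, ha, (gt_or_gt_of_pm_zero (hv3 a hab ha) hu2).symm⟩
  obtain ⟨t, ht, h | h⟩ := key
  · exact Or.inl ⟨t, ht, h, trivial⟩
  · exact Or.inr ⟨t, ht, h, trivial⟩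

/-- The word that starts at position `m`. -/
def start (m : ℕ) : Word := fun t => if t = m then some 0 else none

lemma Opn.succ_cases {m : ℕ} {w : Word} (hw : Opn (m + 1) w) :
    w = start m ∨ (IsPM (w m) ∧ Opn m (trunc m w)) := by
  obtain ⟨a, ha, h1, h2, h3, h4⟩ := hw
  rcases Nat.lt_succ_iff_lt_or_eq.1 ha with ham | ham
  · right
    refine ⟨h3 m ham (Nat.lt_succ_self m), a, ham, ?_, ?_, ?_, ?_⟩
    · intro t ht
      simp [trunc, h1 t ht]
    · simp [trunc, ham, h2]
    · intro t ht htm
      simpa [trunc, htm] using h3 t ht (by omega)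
    · intro t ht
      simp [trunc, not_lt.2 ht]
  · left
    funext t
    rcases lt_trichotomy t m with ht | ht | ht
    · rw [h1 t (by omega)]; simp [start, ht.ne]
    · subst ht; subst ham; simp [start, h2]
    · rw [h4 t (by omega)]; simp [start, ht.ne']

lemma Opn.none_of_le {m : ℕ} {w : Word} (hw : Opn m w) : ∀ t, m ≤ t → w t = none := by
  obtain ⟨a, _, _, _, _, h4⟩ := hw
  exact h4

lemma Cls.none_of_le {m : ℕ} {w : Word} (hw : Cls m w) : ∀ t, m ≤ t → w t = none := by
  obtain ⟨a, b, _, hb, _, _, _, _, h4⟩ := hw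
  intro t ht
  exact h4 t (by omega)

lemma Cls.succ_cases {m : ℕ} {w : Word} (hw : Cls (m + 1) w) :
    (w m = none ∧ Cls m (trunc m w)) ∨ (w m = some 0 ∧ Opn m (trunc m w)) := by
  obtain ⟨a, b, hab, hb, h1, h2, h3, h4, h5⟩ := hw
  rcases Nat.lt_succ_iff_lt_or_eq.1 hb with hbm | hbm
  · left
    refine ⟨h5 m hbm, a, b, hab, hbm, ?_, ?_, ?_, ?_, ?_⟩
    · intro t ht
      simp [trunc, h1 t ht]
    · have : a < m := by omega
      simp [trunc, this, h2]
    · intro t ht htb
      have : t < m := by omega
      simpa [trunc, this] using h3 t ht htb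
    · simp [trunc, hbm, h4]
    · intro t ht
      simp [trunc, h5 t ht]
  · right
    subst hbm
    refine ⟨h4, a, hab, ?_, ?_, ?_, ?_⟩
    · intro t ht
      simp [trunc, h1 t ht]
    · simp [trunc, hab, h2]
    · intro t ht htm
      simpa [trunc, htm] using h3 t ht htm
    · intro t ht
      simp [trunc, not_lt.2 ht]

lemma not_opn_of_cls {m : ℕ} {w : Word} (hc : Cls m w) (ho : Opn m w) : False := by
  obtain ⟨a, b, hab, hb, h1, h2, h3, h4, h5⟩ := hc
  obtain ⟨c, hc, g1, g2, g3, g4⟩ := ho
  have hca : c ≤ a := by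
    by_contra h
    have := g1 a (not_le.1 h)
    rw [h2] at this
    simp at this
  exact (g3 b (by omega) hb).ne_zero h4

/-- The bound for open words. -/
def T (m j : ℕ) : ℕ := ∑ l ∈ range j, m.choose l + 2 * m.choose j

lemma T_succ (m j : ℕ) : T (m + 1) (j + 1) = T m (j + 1) + T m j := by
  unfold T
  have h : ∑ l ∈ range (j + 1), (m + 1).choose l
      = ∑ l ∈ range (j + 1), m.choose l + ∑ l ∈ range j, m.choose l := by
    induction j with
    | zero => simp
    | succ j ih =>
      rw [sum_range_succ, ih, sum_range_succ (fun l => m.choose l) (j + 1),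
        sum_range_succ (fun l => m.choose l) j, Nat.choose_succ_succ']
      ring
  rw [h, Nat.choose_succ_succ']
  ring

lemma T_pos (m j : ℕ) : 1 ≤ T m j := by
  unfold T
  cases j with
  | zero => simp
  | succ j =>
    rw [sum_range_succ']
    simp
    omega

open Classical in
/-- The part of a family with a given last letter, truncated. -/
noncomputable def part (F : Finset Word) (m : ℕ) (c : Option SignType) : Finset Word :=
  (F.filter (fun w => w ≠ start m ∧ w m = c)).image (trunc m)

lemma mem_part {F : Finset Word} {m : ℕ} {c : Option SignType} {u : Word} :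
    u ∈ part F m c ↔ ∃ w ∈ F, w ≠ start m ∧ w m = c ∧ trunc m w = u := by
  classical
  simp [part, and_assoc]

open Classical in
lemma card_part {F : Finset Word} {m : ℕ} (hF : ∀ w ∈ F, ∀ t, m + 1 ≤ t → w t = none)
    (c : Option SignType) :
    (part F m c).card = (F.filter (fun w => w ≠ start m ∧ w m = c)).card := by
  unfold part
  convert card_image_of_injOn ?_
  intro u hu v hv huv
  simp only [coe_filter, Set.mem_ofPred_eq] at hu hv
  exact eq_of_trunc huv (hu.2.2.trans hv.2.2.symm) (hF u hu.1) (hF v hv.1)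

lemma card_le_parts {F : Finset Word} {m : ℕ} (hF : ∀ w ∈ F, ∀ t, m + 1 ≤ t → w t = none) :
    F.card ≤ 1 + (part F m none).card + (part F m (some 0)).card + (part F m (some 1)).card
      + (part F m (some (-1))).card := by
  classical
  rw [card_part hF, card_part hF, card_part hF, card_part hF]
  have hsub : F ⊆ {start m} ∪ F.filter (fun w => w ≠ start m ∧ w m = none)
      ∪ F.filter (fun w => w ≠ start m ∧ w m = some 0)
      ∪ F.filter (fun w => w ≠ start m ∧ w m = some 1)
      ∪ F.filter (fun w => w ≠ start m ∧ w m = some (-1)) := by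
    intro w hw
    by_cases hs : w = start m
    · simp [hs]
    · simp only [mem_union, mem_singleton, mem_filter, hw, true_and, hs, ne_eq,
        not_false_eq_true, false_or]
      rcases h : w m with _ | c
      · simp
      · cases c <;> simp
  refine (card_le_card hsub).trans ?_
  refine (card_union_le _ _).trans (Nat.add_le_add_right ?_ _)
  refine (card_union_le _ _).trans (Nat.add_le_add_right ?_ _)
  refine (card_union_le _ _).trans (Nat.add_le_add_right ?_ _)
  refine (card_union_le _ _).trans (Nat.add_le_add_right ?_ _)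
  simp

lemma no_alt_part {F : Finset Word} {m j : ℕ} (h : ∀ u ∈ F, ∀ v ∈ F, ¬ Alt j u v (m + 1))
    {c d : Option SignType} {u v : Word} (hu : u ∈ part F m c) (hv : v ∈ part F m d) :
    ¬ Alt j u v m := by
  obtain ⟨u', hu', -, -, rfl⟩ := mem_part.1 hu
  obtain ⟨v', hv', -, -, rfl⟩ := mem_part.1 hv
  intro ha
  exact h u' hu' v' hv' ((Alt.of_trunc le_rfl ha).mono (Nat.le_succ m))

lemma no_alt_branch {F : Finset Word} {m j : ℕ}
    (h : ∀ u ∈ F, ∀ v ∈ F, ¬ Alt (j + 1) u v (m + 1))
    {c d : Option SignType} (hcd : Gt d c) {u v : Word} (hu : u ∈ part F m c)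
    (hv : v ∈ part F m d) : ¬ Alt j u v m := by
  obtain ⟨u', hu', -, hc, rfl⟩ := mem_part.1 hu
  obtain ⟨v', hv', -, hd, rfl⟩ := mem_part.1 hv
  intro ha
  refine h v' hv' u' hu' ⟨m, Nat.lt_succ_self m, ?_, Alt.of_trunc le_rfl ha⟩
  rw [hc, hd]; exact hcd

theorem card_opn : ∀ (m j : ℕ) (F : Finset Word), (∀ w ∈ F, Opn m w) →
    (∀ u ∈ F, ∀ v ∈ F, ¬ Alt (j + 1) u v m) → F.card + 1 ≤ T m j := by
  classical
  intro m
  induction m with
  | zero =>
    intro j F hF _
    have : F = ∅ := by
      apply eq_empty_of_forall_notMem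
      intro w hw
      obtain ⟨a, ha, -⟩ := hF w hw
      omega
    rw [this]
    simpa using T_pos 0 j
  | succ m ih =>
    intro j F hF hA
    cases j with
    | zero =>
      have : F.card ≤ 1 := by
        rw [card_le_one]
        intro u hu v hv
        by_contra huv
        rcases (hF u hu).alt_one (hF v hv) huv with h | h
        · exact hA u hu v hv h
        · exact hA v hv u hu h
      simp [T]
      omega
    | succ j =>
      have hnone : ∀ w ∈ F, ∀ t, m + 1 ≤ t → w t = none := fun w hw => (hF w hw).none_of_le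
      have h0 := card_le_parts hnone
      have hopn : ∀ c, ∀ u ∈ part F m c, IsPM c ∧ Opn m u := by
        intro c u hu
        obtain ⟨w, hw, hs, hc, rfl⟩ := mem_part.1 hu
        rcases (hF w hw).succ_cases with h | h
        · exact absurd h hs
        · exact ⟨hc ▸ h.1, h.2⟩
      have e1 : part F m none = ∅ := by
        apply eq_empty_of_forall_notMem
        intro u hu
        exact (hopn _ u hu).1.ne_none rfl
      have e2 : part F m (some 0) = ∅ := by
        apply eq_empty_of_forall_notMem
        intro u hu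
        exact (hopn _ u hu).1.ne_zero rfl
      rw [e1, e2] at h0
      have hU := ih (j + 1) (part F m (some 1) ∪ part F m (some (-1))) (by
          intro u hu
          rcases mem_union.1 hu with hu | hu <;> exact (hopn _ u hu).2) (by
          intro u hu v hv
          rcases mem_union.1 hu with hu | hu <;> rcases mem_union.1 hv with hv | hv <;>
            exact no_alt_part hA hu hv)
      have hI := ih j (part F m (some 1) ∩ part F m (some (-1))) (by
          intro u hu
          exact (hopn _ u (mem_inter.1 hu).1).2) (by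
          intro u hu v hv
          exact no_alt_branch hA ⟨1, -1, rfl, rfl, by decide⟩ (mem_inter.1 hu).2
            (mem_inter.1 hv).1)
      have hUI := card_union_add_card_inter (part F m (some 1)) (part F m (some (-1)))
      rw [T_succ]
      simp only [card_empty] at h0
      omega

theorem card_all : ∀ (m j : ℕ) (F : Finset Word), (∀ w ∈ F, Opn m w ∨ Cls m w) →
    (∀ u ∈ F, ∀ v ∈ F, ¬ Alt (j + 2) u v m) → F.card + m ≤ 2 * ∑ i ∈ range m, T i j := by
  classical
  intro m
  induction m with
  | zero =>
    intro j F hF _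
    have : F = ∅ := by
      apply eq_empty_of_forall_notMem
      intro w hw
      rcases hF w hw with ⟨a, ha, -⟩ | ⟨a, b, -, hb, -⟩ <;> omega
    rw [this]
    simp
  | succ m ih =>
    intro j F hF hA
    have hnone : ∀ w ∈ F, ∀ t, m + 1 ≤ t → w t = none := fun w hw =>
      (hF w hw).elim (fun h => h.none_of_le) (fun h => h.none_of_le)
    have h0 := card_le_parts hnone
    have hcls : ∀ u ∈ part F m none, Cls m u := by
      intro u hu
      obtain ⟨w, hw, hs, hc, rfl⟩ := mem_part.1 hu
      rcases hF w hw with h | h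
      · rcases h.succ_cases with h | h
        · exact absurd h hs
        · exact absurd hc h.1.ne_none
      · rcases h.succ_cases with h | h
        · exact h.2
        · rw [hc] at h; simp at h
    have hopn : ∀ c, ∀ u ∈ part F m (some c), Opn m u := by
      intro c u hu
      obtain ⟨w, hw, hs, hc, rfl⟩ := mem_part.1 hu
      rcases hF w hw with h | h
      · rcases h.succ_cases with h | h
        · exact absurd h hs
        · exact h.2
      · rcases h.succ_cases with h | h
        · rw [hc] at h; simp at h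
        · exact h.2
    set N := part F m none with hN
    set Z := part F m (some 0) with hZ
    set P := part F m (some 1) with hP
    set M := part F m (some (-1)) with hM
    have hmem : ∀ u ∈ N ∪ (P ∪ (Z ∪ M)), ∃ c, u ∈ part F m c := by
      intro u hu
      simp only [mem_union] at hu
      rcases hu with hu | hu | hu | hu
      exacts [⟨_, hu⟩, ⟨_, hu⟩, ⟨_, hu⟩, ⟨_, hu⟩]
    have hU := ih j (N ∪ (P ∪ (Z ∪ M))) (by
        intro u hu
        simp only [mem_union] at hu
        rcases hu with hu | hu | hu | hu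
        exacts [Or.inr (hcls u hu), Or.inl (hopn _ u hu), Or.inl (hopn _ u hu),
          Or.inl (hopn _ u hu)]) (by
        intro u hu v hv
        obtain ⟨c, hc⟩ := hmem u hu
        obtain ⟨d, hd⟩ := hmem v hv
        exact no_alt_part hA hc hd)
    have hI1 := card_opn m j (P ∩ (Z ∪ M)) (by
        intro u hu
        exact hopn _ u (mem_inter.1 hu).1) (by
        intro u hu v hv
        rcases mem_union.1 (mem_inter.1 hu).2 with hu | hu
        · exact no_alt_branch hA ⟨1, 0, rfl, rfl, by decide⟩ hu (mem_inter.1 hv).1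
        · exact no_alt_branch hA ⟨1, -1, rfl, rfl, by decide⟩ hu (mem_inter.1 hv).1)
    have hI2 := card_opn m j (Z ∩ M) (by
        intro u hu
        exact hopn _ u (mem_inter.1 hu).1) (by
        intro u hu v hv
        exact no_alt_branch hA ⟨0, -1, rfl, rfl, by decide⟩ (mem_inter.1 hu).2
          (mem_inter.1 hv).1)
    have hd : Disjoint N (P ∪ (Z ∪ M)) := by
      rw [disjoint_left]
      intro u hu hu'
      simp only [mem_union] at hu'
      rcases hu' with h | h | h <;> exact not_opn_of_cls (hcls u hu) (hopn _ u h)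
    rw [card_union_of_disjoint hd] at hU
    have e1 := card_union_add_card_inter P (Z ∪ M)
    have e2 := card_union_add_card_inter Z M
    rw [sum_range_succ]
    omega

lemma sum_T (n j : ℕ) :
    ∑ i ∈ range n, T i j = ∑ l ∈ range j, n.choose (l + 1) + 2 * n.choose (j + 1) := by
  induction n with
  | zero => simp
  | succ n ih =>
    rw [sum_range_succ, ih, T]
    simp only [Nat.choose_succ_succ', sum_add_distrib]
    ring

theorem card_cls (n k : ℕ) (F : Finset Word) (hF : ∀ w ∈ F, Cls n w)
    (hA : ∀ u ∈ F, ∀ v ∈ F, ¬ Alt (k + 2) u v n) :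
    F.card + n ≤ 2 * ∑ l ∈ range k, n.choose (l + 1) + 4 * n.choose (k + 1) := by
  have := card_all n k F (fun w hw => Or.inr (hF w hw)) hA
  rw [sum_T] at this
  omega

end Pool.Agent.Lib.MP_6a261b_co
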