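import Mathlib
import Pool.Agent.Lib.MP_6a261b_co.Words

/-! From monotone curves to sign words. -/

set_option autoImplicit false

namespace Pool.Agent.Lib.MP_6a261b_co

open Set unitInterval

/-- A monotone curve between two different points is the graph of a continuous function. -/
lemma graph_aux (γ : C(I, ℝ × ℝ)) (hmono : ∀ s t, (γ s).1 = (γ t).1 → γ s = γ t)
    (a b : ℝ) (hab : a < b)
    (hends : ((γ 0).1 = a ∧ (γ 1).1 = b) ∨ ((γ 0).1 = b ∧ (γ 1).1 = a))
    (hav : ∀ t, t ≠ 0 → t ≠ 1 → γ t ≠ γ 0 ∧ γ t ≠ γ 1) :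
    (∀ t, (γ t).1 ∈ Icc a b) ∧ (∀ x ∈ Icc a b, ∃ t, (γ t).1 = x) ∧
      ∃ g : ℝ → ℝ, Continuous g ∧ ∀ t, g (γ t).1 = (γ t).2 := by
  have hc : Continuous fun t => (γ t).1 := γ.continuous.fst
  have hne : ∀ t, t ≠ 0 → t ≠ 1 → (γ t).1 ≠ a ∧ (γ t).1 ≠ b := by
    intro t h0 h1
    have := hav t h0 h1
    rcases hends with ⟨e0, e1⟩ | ⟨e0, e1⟩
    · exact ⟨fun h => this.1 (hmono _ _ (h.trans e0.symm)),
        fun h => this.2 (hmono _ _ (h.trans e1.symm))⟩
    · exact ⟨fun h => this.2 (hmono _ _ (h.trans e1.symm)),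
        fun h => this.1 (hmono _ _ (h.trans e0.symm))⟩
  have ivt : ∀ (s t : I) (x : ℝ), (γ s).1 ≤ x → x ≤ (γ t).1 →
      ∃ u ∈ uIcc s t, (γ u).1 = x := by
    intro s t x h1 h2
    have := intermediate_value_uIcc (a := s) (b := t) (f := fun t => (γ t).1) hc.continuousOn
    obtain ⟨u, hu, hx⟩ := this (mem_uIcc_of_le h1 h2)
    exact ⟨u, hu, hx⟩
  have hI : ∀ t, (γ t).1 ∈ Icc a b := by
    intro t
    constructor
    · by_contra hlt
      push Not at hlt
      -- go from `t` to the end whose abscissa is `b`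
      rcases hends with ⟨e0, e1⟩ | ⟨e0, e1⟩
      · obtain ⟨u, hu, hx⟩ := ivt t 1 a hlt.le (by rw [e1]; exact hab.le)
        have ht0 : t ≠ 0 := by rintro rfl; rw [e0] at hlt; exact lt_irrefl _ hlt
        have hu0 : u ≠ 0 := by
          rintro rfl
          rw [uIcc_of_le le_one'] at hu
          exact ht0 (le_antisymm hu.1 nonneg')
        have hu1 : u ≠ 1 := by rintro rfl; rw [e1] at hx; exact hab.ne' hx
        exact (hne u hu0 hu1).1 hx
      · obtain ⟨u, hu, hx⟩ := ivt t 0 a hlt.le (by rw [e0]; exact hab.le)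
        have ht1 : t ≠ 1 := by rintro rfl; rw [e1] at hlt; exact lt_irrefl _ hlt
        have hu1 : u ≠ 1 := by
          rintro rfl
          rw [uIcc_of_ge nonneg'] at hu
          exact ht1 (le_antisymm le_one' hu.2)
        have hu0 : u ≠ 0 := by rintro rfl; rw [e0] at hx; exact hab.ne' hx
        exact (hne u hu0 hu1).1 hx
    · by_contra hlt
      push Not at hlt
      rcases hends with ⟨e0, e1⟩ | ⟨e0, e1⟩
      · obtain ⟨u, hu, hx⟩ := ivt 0 t b (by rw [e0]; exact hab.le) hlt.le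
        have ht1 : t ≠ 1 := by rintro rfl; rw [e1] at hlt; exact lt_irrefl _ hlt
        have hu1 : u ≠ 1 := by
          rintro rfl
          rw [uIcc_of_le nonneg'] at hu
          exact ht1 (le_antisymm le_one' hu.2)
        have hu0 : u ≠ 0 := by rintro rfl; rw [e0] at hx; exact hab.ne hx
        exact (hne u hu0 hu1).2 hx
      · obtain ⟨u, hu, hx⟩ := ivt 1 t b (by rw [e1]; exact hab.le) hlt.le
        have ht0 : t ≠ 0 := by rintro rfl; rw [e0] at hlt; exact lt_irrefl _ hlt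
        have hu0 : u ≠ 0 := by
          rintro rfl
          rw [uIcc_of_ge le_one'] at hu
          exact ht0 (le_antisymm hu.1 nonneg')
        have hu1 : u ≠ 1 := by rintro rfl; rw [e1] at hx; exact hab.ne hx
        exact (hne u hu0 hu1).2 hx
  have hsurj : ∀ x ∈ Icc a b, ∃ t, (γ t).1 = x := by
    intro x hx
    rcases hends with ⟨e0, e1⟩ | ⟨e0, e1⟩
    · obtain ⟨u, -, hu⟩ := ivt 0 1 x (e0 ▸ hx.1) (e1 ▸ hx.2)
      exact ⟨u, hu⟩
    · obtain ⟨u, -, hu⟩ := ivt 1 0 x (e1 ▸ hx.1) (e0 ▸ hx.2)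
      exact ⟨u, hu⟩
  refine ⟨hI, hsurj, ?_⟩
  let p : I → Icc a b := fun t => ⟨(γ t).1, hI t⟩
  have hp : Continuous p := hc.subtype_mk _
  have hps : Function.Surjective p := by
    intro x
    obtain ⟨t, ht⟩ := hsurj x.1 x.2
    exact ⟨t, Subtype.ext ht⟩
  have hq : Topology.IsQuotientMap p := Topology.IsQuotientMap.of_surjective_continuous hps hp
  let g0 : Icc a b → ℝ := fun x => (γ (hps x).choose).2
  have hg0 : ∀ t, g0 (p t) = (γ t).2 := by
    intro t
    have h1 := (hps (p t)).choose_spec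
    have h2 : (γ (hps (p t)).choose).1 = (γ t).1 := congrArg Subtype.val h1
    exact congrArg Prod.snd (hmono _ _ h2)
  have hg0c : Continuous g0 := by
    rw [hq.continuous_iff]
    have : g0 ∘ p = fun t => (γ t).2 := funext hg0
    rw [this]
    exact γ.continuous.snd
  refine ⟨IccExtend hab.le g0, hg0c.Icc_extend', fun t => ?_⟩
  rw [IccExtend_of_mem hab.le g0 (hI t)]
  exact hg0 t

/-- The vertical homotopy between two graphs over the same interval. -/
lemma homotopy_aux (γ δ : C(I, ℝ × ℝ)) (g h : ℝ → ℝ) (hg : Continuous g) (hh : Continuous h)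
    (a b : ℝ) (hγ : ∀ t, (γ t).1 ∈ Icc a b) (hδ : ∀ t, (δ t).1 ∈ Icc a b)
    (hgγ : ∀ t, g (γ t).1 = (γ t).2) (hhδ : ∀ t, h (δ t).1 = (δ t).2)
    (h0 : γ 0 = δ 0) (h1 : γ 1 = δ 1) :
    ∃ H : C(I × I, ℝ × ℝ), (∀ s, H (0, s) = γ s) ∧ (∀ s, H (1, s) = δ s) ∧
      (∀ τ, H (τ, 0) = γ 0) ∧ (∀ τ, H (τ, 1) = γ 1) ∧
      ∀ τ s, ∀ p : ℝ × ℝ, (p.1 ∈ Icc a b → (p.2 < g p.1 ∧ p.2 < h p.1) ∨ (g p.1 < p.2 ∧ h p.1 < p.2))
        → H (τ, s) ≠ p := by
  let z : I × I → ℝ := fun q => (1 - (q.1 : ℝ)) * (γ q.2).1 + (q.1 : ℝ) * (δ q.2).1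
  have hz : Continuous z := by
    simp only [z]
    fun_prop
  let H : I × I → ℝ × ℝ := fun q => (z q, (1 - (q.1 : ℝ)) * g (z q) + (q.1 : ℝ) * h (z q))
  have hH : Continuous H := by
    simp only [H]
    fun_prop
  have hfix : ∀ (τ s : I), γ s = δ s → H (τ, s) = γ s := by
    intro τ s hs
    have e : z (τ, s) = (γ s).1 := by
      simp only [z, ← hs]; ring
    have e2 : h (γ s).1 = (γ s).2 := by rw [hs]; exact hhδ s
    simp only [H, e, hgγ, e2]
    ext
    · rfl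
    · simp only; ring
  refine ⟨⟨H, hH⟩, ?_, ?_, fun τ => hfix τ 0 h0, fun τ => hfix τ 1 h1, ?_⟩
  · intro s
    simp [H, z, hgγ]
  · intro s
    simp [H, z, hhδ]
  · intro τ s p hp heq
    have hτ0 : (0 : ℝ) ≤ τ := τ.2.1
    have hτ1 : (τ : ℝ) ≤ 1 := τ.2.2
    have e1 : z (τ, s) = p.1 := congrArg Prod.fst heq
    have e2 : (1 - (τ : ℝ)) * g (z (τ, s)) + (τ : ℝ) * h (z (τ, s)) = p.2 :=
      congrArg Prod.snd heq
    have hzI : z (τ, s) ∈ Icc a b := by
      have := hγ s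
      have := hδ s
      simp only [z, mem_Icc] at *
      constructor <;> nlinarith
    rw [e1] at e2 hzI
    rcases hp hzI with ⟨u1, u2⟩ | ⟨u1, u2⟩
    · rcases eq_or_lt_of_le hτ0 with h | h
      · rw [← h] at e2; linarith
      · nlinarith
    · rcases eq_or_lt_of_le hτ0 with h | h
      · rw [← h] at e2; linarith
      · nlinarith

/-- The word of a graph over the positions `l, …, r`. -/
noncomputable def word (X Y : ℕ → ℝ) (l r : ℕ) (g : ℝ → ℝ) : Word :=
  fun t => if l ≤ t ∧ t ≤ r then some (SignType.sign (g (X t) - Y t)) else none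

lemma gt_word {X Y : ℕ → ℝ} {l r l' r' : ℕ} {g g' : ℝ → ℝ} {t : ℕ}
    (h : Gt (word X Y l r g t) (word X Y l' r' g' t)) :
    (l ≤ t ∧ t ≤ r) ∧ (l' ≤ t ∧ t ≤ r') ∧ g' (X t) < g (X t) := by
  obtain ⟨x, y, hx, hy, hxy⟩ := h
  unfold word at hx hy
  split_ifs at hx hy with h1 h2
  refine ⟨h1, h2, ?_⟩
  by_contra hle
  push Not at hle
  have : SignType.sign (g (X t) - Y t) ≤ SignType.sign (g' (X t) - Y t) :=
    SignType.sign.monotone (by linarith)
  simp only [Option.some.injEq] at hx hy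
  rw [hx, hy] at this
  exact absurd hxy (not_lt.2 this)

/-- Abscissae of the crossings of two graphs. -/
def crossX (X : ℕ → ℝ) (l r l' r' : ℕ) (g g' : ℝ → ℝ) : Set ℝ :=
  {x | (X l < x ∧ x < X r) ∧ (X l' < x ∧ x < X r') ∧ g x = g' x}

lemma crossX_comm (X : ℕ → ℝ) (l r l' r' : ℕ) (g g' : ℝ → ℝ) :
    crossX X l r l' r' g g' = crossX X l' r' l r g' g := by
  ext x
  simp only [crossX, mem_ofPred_eq]
  constructor <;> rintro ⟨h1, h2, h3⟩ <;> exact ⟨h2, h1, h3.symm⟩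

lemma alt_le_encard (X Y : ℕ → ℝ) (n : ℕ) (hX : ∀ s t, s ≤ t → t < n → X s ≤ X t) :
    ∀ (j : ℕ) (l r l' r' : ℕ) (g g' : ℝ → ℝ) (t : ℕ), r < n → r' < n → Continuous g →
      Continuous g' → Gt (word X Y l r g t) (word X Y l' r' g' t) →
      Alt j (word X Y l' r' g') (word X Y l r g) t →
      (j : ℕ∞) ≤ (crossX X l r l' r' g g' ∩ Iio (X t)).encard := by
  intro j
  induction j with
  | zero => intros; simp
  | succ j ih =>
    intro l r l' r' g g' t hr hr' hg hg' hgt halt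
    obtain ⟨s, hst, hgs, halt'⟩ := halt
    have h1 := ih l' r' l r g' g s hr' hr hg' hg hgs halt'
    rw [crossX_comm] at h1
    obtain ⟨⟨a1, a2⟩, ⟨a3, a4⟩, a5⟩ := gt_word hgt
    obtain ⟨⟨b1, b2⟩, ⟨b3, b4⟩, b5⟩ := gt_word hgs
    have hle : X s ≤ X t := hX s t hst.le (by omega)
    have hcont : ContinuousOn (fun x => g x - g' x) (Icc (X s) (X t)) :=
      (hg.sub hg').continuousOn
    obtain ⟨x, hx, hx0⟩ := intermediate_value_Ioo hle hcont
      (show (0 : ℝ) ∈ Ioo (g (X s) - g' (X s)) (g (X t) - g' (X t)) from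
        ⟨by linarith, by linarith⟩)
    have hxmem : x ∈ crossX X l r l' r' g g' ∩ Iio (X t) := by
      refine ⟨⟨⟨?_, ?_⟩, ⟨?_, ?_⟩, ?_⟩, hx.2⟩
      · exact lt_of_le_of_lt (hX l s b3 (by omega)) hx.1
      · exact lt_of_lt_of_le hx.2 (hX t r a2 hr)
      · exact lt_of_le_of_lt (hX l' s b1 (by omega)) hx.1
      · exact lt_of_lt_of_le hx.2 (hX t r' a4 hr')
      · simpa [sub_eq_zero] using hx0
    have hnot : x ∉ crossX X l r l' r' g g' ∩ Iio (X s) := fun h => absurd h.2 (not_lt.2 hx.1.le)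
    have hsub : insert x (crossX X l r l' r' g g' ∩ Iio (X s))
        ⊆ crossX X l r l' r' g g' ∩ Iio (X t) := by
      rintro y (rfl | hy)
      · exact hxmem
      · exact ⟨hy.1, lt_of_lt_of_le hy.2 hle⟩
    calc ((j + 1 : ℕ) : ℕ∞) = (j : ℕ∞) + 1 := by push_cast; rfl
      _ ≤ (crossX X l r l' r' g g' ∩ Iio (X s)).encard + 1 := by gcongr
      _ = (insert x (crossX X l r l' r' g g' ∩ Iio (X s))).encard :=
          (encard_insert_of_notMem hnot).symm
      _ ≤ _ := encard_le_encard hsub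

lemma support_word {X Y : ℕ → ℝ} {l r l' r' : ℕ} {g g' : ℝ → ℝ} (hlr : l ≤ r) (hlr' : l' ≤ r')
    (h : word X Y l r g = word X Y l' r' g') : l = l' ∧ r = r' := by
  have key : ∀ t, (l ≤ t ∧ t ≤ r) ↔ (l' ≤ t ∧ t ≤ r') := by
    intro t
    have := congrFun h t
    unfold word at this
    by_cases h1 : l ≤ t ∧ t ≤ r <;> by_cases h2 : l' ≤ t ∧ t ≤ r'
    · exact iff_of_true h1 h2
    · rw [if_pos h1, if_neg h2] at this; simp at this
    · rw [if_neg h1, if_pos h2] at this; simp at this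
    · exact iff_of_false h1 h2
  have k1 := (key l).1 ⟨le_rfl, hlr⟩
  have k2 := (key r).1 ⟨hlr, le_rfl⟩
  have k3 := (key l').2 ⟨le_rfl, hlr'⟩
  have k4 := (key r').2 ⟨hlr', le_rfl⟩
  omega

theorem main {V E : Type*} [Fintype V] [Fintype E] (src tgt : E → V) (pt : V → ℝ × ℝ)
    (hpt : Function.Injective pt) (γ : E → C(I, ℝ × ℝ))
    (h0 : ∀ e, γ e 0 = pt (src e)) (h1 : ∀ e, γ e 1 = pt (tgt e))
    (hav : ∀ e t, t ≠ 0 → t ≠ 1 → ∀ v, γ e t ≠ pt v)
    (hloop : ∀ e, src e ≠ tgt e)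
    (hmono : ∀ e s t, (γ e s).1 = (γ e t).1 → γ e s = γ e t)
    (hnh : ∀ e f, e ≠ f → s(src e, tgt e) = s(src f, tgt f) →
      ¬ ∃ H : C(I × I, ℝ × ℝ), (∀ s, H (0, s) = γ e s) ∧
        ((∀ s, H (1, s) = γ f s) ∨ (∀ s, H (1, s) = γ f (σ s))) ∧
        (∀ τ, H (τ, 0) = pt (src e)) ∧ (∀ τ, H (τ, 1) = pt (tgt e)) ∧
        ∀ τ s x, x ≠ src e → x ≠ tgt e → H (τ, s) ≠ pt x)
    (k : ℕ)
    (hcr : ∀ e f, e ≠ f → {q : I × I | q.1 ≠ 0 ∧ q.1 ≠ 1 ∧ q.2 ≠ 0 ∧ q.2 ≠ 1 ∧
      γ e q.1 = γ f q.2}.encard ≤ k) :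
    Fintype.card E + Fintype.card V ≤
      2 * ∑ l ∈ Finset.range k, (Fintype.card V).choose (l + 1)
        + 4 * (Fintype.card V).choose (k + 1) := by
  classical
  set n := Fintype.card V with hn
  let _ : LinearOrder V := LinearOrder.lift' (fun v => toLex (pt v))
    (fun u v h => hpt (toLex.injective h))
  have hltV : ∀ u v : V, u < v ↔ (pt u).1 < (pt v).1 ∨ ((pt u).1 = (pt v).1 ∧ (pt u).2 < (pt v).2) :=
    fun u v => Prod.Lex.toLex_lt_toLex
  let φ : Fin n ≃o V := monoEquivOfFin V rfl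
  let X : ℕ → ℝ := fun t => if h : t < n then (pt (φ ⟨t, h⟩)).1 else 0
  let Y : ℕ → ℝ := fun t => if h : t < n then (pt (φ ⟨t, h⟩)).2 else 0
  let rk : V → ℕ := fun v => (φ.symm v).val
  have hrk : ∀ v, rk v < n := fun v => (φ.symm v).2
  have hXrk : ∀ v, X (rk v) = (pt v).1 := by
    intro v; simp [X, rk]
  have hYrk : ∀ v, Y (rk v) = (pt v).2 := by
    intro v; simp [Y, rk]
  have hrk_lt : ∀ u v, rk u < rk v ↔ u < v := by
    intro u v
    exact Fin.val_fin_lt.trans φ.symm.lt_iff_lt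
  have hrk_inj : Function.Injective rk := fun u v h => φ.symm.injective (Fin.ext h)
  have hrk_surj : ∀ t, t < n → ∃ v, rk v = t := fun t ht => ⟨φ ⟨t, ht⟩, by simp [rk]⟩
  have hX : ∀ s t, s ≤ t → t < n → X s ≤ X t := by
    intro s t hst ht
    obtain ⟨u, rfl⟩ := hrk_surj s (by omega)
    obtain ⟨v, rfl⟩ := hrk_surj t ht
    rw [hXrk, hXrk]
    rcases eq_or_lt_of_le hst with h | h
    · rw [hrk_inj h]
    · rcases (hltV u v).1 ((hrk_lt u v).1 h) with h | h
      · exact h.le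
      · exact h.1.le
  -- left and right end of each edge
  have hxne : ∀ e, (pt (src e)).1 ≠ (pt (tgt e)).1 := by
    intro e h
    have := hmono e 0 1 (by rw [h0, h1]; exact h)
    rw [h0, h1] at this
    exact hloop e (hpt this)
  have hLR : ∀ e, ∃ L R : V, (pt L).1 < (pt R).1 ∧
      ((src e = L ∧ tgt e = R) ∨ (src e = R ∧ tgt e = L)) := by
    intro e
    rcases lt_or_gt_of_ne (hxne e) with h | h
    · exact ⟨src e, tgt e, h, Or.inl ⟨rfl, rfl⟩⟩
    · exact ⟨tgt e, src e, h, Or.inr ⟨rfl, rfl⟩⟩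
  choose L R hLR1 hLR2 using hLR
  have hgraph : ∀ e, (∀ t, (γ e t).1 ∈ Icc (pt (L e)).1 (pt (R e)).1) ∧
      (∀ x ∈ Icc (pt (L e)).1 (pt (R e)).1, ∃ t, (γ e t).1 = x) ∧
      ∃ g : ℝ → ℝ, Continuous g ∧ ∀ t, g (γ e t).1 = (γ e t).2 := by
    intro e
    refine graph_aux (γ e) (hmono e) _ _ (hLR1 e) ?_ ?_
    · rw [h0, h1]
      rcases hLR2 e with ⟨a, b⟩ | ⟨a, b⟩
      · left; rw [a, b]; exact ⟨rfl, rfl⟩
      · right; rw [a, b]; exact ⟨rfl, rfl⟩
    · intro t t0 t1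
      rw [h0, h1]
      exact ⟨hav e t t0 t1 _, hav e t t0 t1 _⟩
  choose hI hS g hgc hg using hgraph
  have hgsrc : ∀ e, g e (pt (src e)).1 = (pt (src e)).2 := fun e => by
    rw [← h0]; exact hg e 0
  have hgtgt : ∀ e, g e (pt (tgt e)).1 = (pt (tgt e)).2 := fun e => by
    rw [← h1]; exact hg e 1
  have hgL : ∀ e, g e (pt (L e)).1 = (pt (L e)).2 := fun e => by
    rcases hLR2 e with ⟨a, b⟩ | ⟨a, b⟩
    · rw [← a]; exact hgsrc e
    · rw [← b]; exact hgtgt e
  have hgR : ∀ e, g e (pt (R e)).1 = (pt (R e)).2 := fun e => by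
    rcases hLR2 e with ⟨a, b⟩ | ⟨a, b⟩
    · rw [← b]; exact hgtgt e
    · rw [← a]; exact hgsrc e
  have hlr : ∀ e, rk (L e) < rk (R e) := fun e =>
    (hrk_lt _ _).2 ((hltV _ _).2 (Or.inl (hLR1 e)))
  -- a vertex other than the ends is not on the graph
  have hoff : ∀ e v, v ≠ L e → v ≠ R e → (pt v).1 ∈ Icc (pt (L e)).1 (pt (R e)).1 →
      g e (pt v).1 ≠ (pt v).2 := by
    intro e v hL hR hv heq
    obtain ⟨t, ht⟩ := hS e _ hv
    have hγ : γ e t = pt v := by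
      ext
      · exact ht
      · rw [← hg e t, ht, heq]
    have hs : v ≠ src e ∧ v ≠ tgt e := by
      rcases hLR2 e with ⟨a, b⟩ | ⟨a, b⟩
      · rw [a, b]; exact ⟨hL, hR⟩
      · rw [a, b]; exact ⟨hR, hL⟩
    by_cases t0 : t = 0
    · rw [t0, h0] at hγ; exact hs.1 (hpt hγ).symm
    by_cases t1 : t = 1
    · rw [t1, h1] at hγ; exact hs.2 (hpt hγ).symm
    exact hav e t t0 t1 v hγ
  let W : E → Word := fun e => word X Y (rk (L e)) (rk (R e)) (g e)
  have hcls : ∀ e, Cls n (W e) := by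
    intro e
    refine ⟨rk (L e), rk (R e), hlr e, hrk _, ?_, ?_, ?_, ?_, ?_⟩
    · intro t ht
      simp [W, word, not_le.2 ht]
    · simp [W, word, (hlr e).le, hXrk, hYrk, hgL]
    · intro t ht1 ht2
      obtain ⟨v, rfl⟩ := hrk_surj t (ht2.trans (hrk _))
      have hne := hoff e v (by rintro rfl; exact lt_irrefl _ ht1)
        (by rintro rfl; exact lt_irrefl _ ht2)
        ⟨by rw [← hXrk, ← hXrk]; exact hX _ _ ht1.le (hrk _),
          by rw [← hXrk, ← hXrk]; exact hX _ _ ht2.le (hrk _)⟩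
      simp only [W, word, ht1.le, ht2.le, and_self, if_true, hXrk, hYrk]
      rcases lt_or_gt_of_ne hne with h | h
      · right; rw [sign_neg (by linarith)]
      · left; rw [sign_pos (by linarith)]
    · simp [W, word, (hlr e).le, hXrk, hYrk, hgR]
    · intro t ht
      simp [W, word, not_le.2 ht]
  have hinj : Function.Injective W := by
    intro e f hef
    by_contra hne
    obtain ⟨eL, eR⟩ := support_word (hlr e).le (hlr f).le hef
    have eL' : L e = L f := hrk_inj eL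
    have eR' : R e = R f := hrk_inj eR
    have hsep : ∀ x, x ≠ src e → x ≠ tgt e → (pt x).1 ∈ Icc (pt (L e)).1 (pt (R e)).1 →
        ((pt x).2 < g e (pt x).1 ∧ (pt x).2 < g f (pt x).1) ∨
          (g e (pt x).1 < (pt x).2 ∧ g f (pt x).1 < (pt x).2) := by
      intro x hx1 hx2 hx
      have hs : x ≠ L e ∧ x ≠ R e := by
        rcases hLR2 e with ⟨a, b⟩ | ⟨a, b⟩
        · rw [← a, ← b]; exact ⟨hx1, hx2⟩
        · rw [← a, ← b]; exact ⟨hx2, hx1⟩
      have hne1 := hoff e x hs.1 hs.2 hx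
      by_cases hin : rk (L e) ≤ rk x ∧ rk x ≤ rk (R e)
      · have hw := congrFun hef (rk x)
        have hin' : rk (L f) ≤ rk x ∧ rk x ≤ rk (R f) := by rw [← eL, ← eR]; exact hin
        simp only [W, word, hin, hin', and_self, if_true, hXrk, hYrk, Option.some.injEq] at hw
        rcases lt_or_gt_of_ne hne1 with h | h
        · right
          rw [sign_neg (by linarith), eq_comm, sign_eq_neg_one_iff] at hw
          exact ⟨h, by linarith⟩
        · left
          rw [sign_pos (by linarith), eq_comm, sign_eq_one_iff] at hw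
          exact ⟨h, by linarith⟩
      · have hgg : g f (pt x).1 = g e (pt x).1 := by
          rw [not_and_or, not_le, not_le] at hin
          rcases hin with hin | hin
          · have : (pt x).1 = (pt (L e)).1 := by
              apply le_antisymm _ hx.1
              rw [← hXrk, ← hXrk]; exact hX _ _ hin.le (hrk _)
            rw [this, hgL e, eL', hgL f]
          · have : (pt x).1 = (pt (R e)).1 := by
              apply le_antisymm hx.2
              rw [← hXrk, ← hXrk]; exact hX _ _ hin.le (hrk _)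
            rw [this, hgR e, eR', hgR f]
        rw [hgg]
        rcases lt_or_gt_of_ne hne1 with h | h
        · right; exact ⟨h, h⟩
        · left; exact ⟨h, h⟩
    have hIf : ∀ t, (γ f t).1 ∈ Icc (pt (L e)).1 (pt (R e)).1 := by
      rw [eL', eR']; exact hI f
    have hcase : (src e = src f ∧ tgt e = tgt f) ∨ (src e = tgt f ∧ tgt e = src f) := by
      rcases hLR2 e with ⟨a, b⟩ | ⟨a, b⟩ <;> rcases hLR2 f with ⟨c, d⟩ | ⟨c, d⟩
      · left; rw [a, b, c, d]; exact ⟨eL', eR'⟩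
      · right; rw [a, b, c, d]; exact ⟨eL', eR'⟩
      · right; rw [a, b, c, d]; exact ⟨eR', eL'⟩
      · left; rw [a, b, c, d]; exact ⟨eR', eL'⟩
    apply hnh e f hne (Sym2.eq_iff.2 hcase)
    rcases hcase with ⟨a, b⟩ | ⟨a, b⟩
    · obtain ⟨H, H0, H1, H2, H3, H4⟩ := homotopy_aux (γ e) (γ f) (g e) (g f) (hgc e) (hgc f) _ _
        (hI e) hIf (hg e) (hg f) (by rw [h0, h0, a]) (by rw [h1, h1, b])
      refine ⟨H, H0, Or.inl H1, fun τ => by rw [H2, h0], fun τ => by rw [H3, h1], ?_⟩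
      intro τ s x hx1 hx2
      exact H4 τ s _ (hsep x hx1 hx2)
    · let δ : C(I, ℝ × ℝ) := (γ f).comp ⟨σ, continuous_symm⟩
      have hδ : ∀ s, δ s = γ f (σ s) := fun s => rfl
      obtain ⟨H, H0, H1, H2, H3, H4⟩ := homotopy_aux (γ e) δ (g e) (g f) (hgc e) (hgc f) _ _
        (hI e) (fun t => hIf _) (hg e) (fun t => hg f _)
        (by rw [hδ, symm_zero, h0, h1, a]) (by rw [hδ, symm_one, h1, h0, b])
      refine ⟨H, H0, Or.inr H1, fun τ => by rw [H2, h0], fun τ => by rw [H3, h1], ?_⟩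
      intro τ s x hx1 hx2
      exact H4 τ s _ (hsep x hx1 hx2)
  have hnoalt : ∀ e f, ¬ Alt (k + 2) (W e) (W f) n := by
    intro e f halt
    obtain ⟨t, ht, hgt, halt'⟩ := halt
    have hef : e ≠ f := by
      rintro rfl
      exact lt_irrefl _ (gt_word hgt).2.2
    have h2 := alt_le_encard X Y n hX (k + 1) _ _ _ _ _ _ t (hrk _) (hrk _) (hgc e) (hgc f)
      hgt halt'
    have h3 : crossX X (rk (L e)) (rk (R e)) (rk (L f)) (rk (R f)) (g e) (g f) ∩ Iio (X t)
        ⊆ (fun q : I × I => (γ e q.1).1) '' {q : I × I | q.1 ≠ 0 ∧ q.1 ≠ 1 ∧ q.2 ≠ 0 ∧ q.2 ≠ 1 ∧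
          γ e q.1 = γ f q.2} := by
      rintro x ⟨⟨⟨a1, a2⟩, ⟨a3, a4⟩, a5⟩, -⟩
      rw [hXrk] at a1 a2 a3 a4
      obtain ⟨s, hs⟩ := hS e x ⟨a1.le, a2.le⟩
      obtain ⟨s', hs'⟩ := hS f x ⟨a3.le, a4.le⟩
      have hend : ∀ (d : E) (u : I), (pt (L d)).1 < (γ d u).1 → (γ d u).1 < (pt (R d)).1 →
          u ≠ 0 ∧ u ≠ 1 := by
        intro d u b1 b2
        constructor
        · rintro rfl
          rw [h0] at b1 b2
          rcases hLR2 d with ⟨a, b⟩ | ⟨a, b⟩
          · rw [a] at b1; exact lt_irrefl _ b1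
          · rw [a] at b2; exact lt_irrefl _ b2
        · rintro rfl
          rw [h1] at b1 b2
          rcases hLR2 d with ⟨a, b⟩ | ⟨a, b⟩
          · rw [b] at b2; exact lt_irrefl _ b2
          · rw [b] at b1; exact lt_irrefl _ b1
      have c1 := hend e s (hs ▸ a1) (hs ▸ a2)
      have c2 := hend f s' (hs' ▸ a3) (hs' ▸ a4)
      refine ⟨(s, s'), ⟨c1.1, c1.2, c2.1, c2.2, ?_⟩, hs⟩
      ext
      · rw [hs, hs']
      · rw [← hg e s, ← hg f s', hs, hs', a5]
    have h4 := h2.trans ((encard_le_encard h3).trans ((encard_image_le _ _).trans (hcr e f hef)))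
    have h5 : k + 1 ≤ k := by exact_mod_cast h4
    omega
  have hfin := card_cls n k (Finset.univ.image W) (by
      intro w hw
      obtain ⟨e, -, rfl⟩ := Finset.mem_image.1 hw
      exact hcls e) (by
      intro u hu v hv
      obtain ⟨e, -, rfl⟩ := Finset.mem_image.1 hu
      obtain ⟨f, -, rfl⟩ := Finset.mem_image.1 hv
      exact hnoalt e f)
  rwa [Finset.card_image_of_injective _ hinj, Finset.card_univ] at hfin

end Pool.Agent.Lib.MP_6a261b_co
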